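import Mathlib
import Pool.Agent.MP_741a63_co.Ext

set_option autoImplicit false

namespace Pool.Agent.Results.MP_741a63_co.ExtremalClasses

/-- Extremal colourings of Steiner quadruple systems (`2 ^ k = 2 * v`): the class sizes are
`1, 1, 2, 4, ...` and the blocks through the two singleton classes are nested. -/
theorem result :
    ∀ (v k : ℕ) (B : Finset (Finset (Fin v))),
      (∀ b ∈ B, b.card = 4) →
      (∀ T : Finset (Fin v), T.card = 3 → ∃! b, b ∈ B ∧ T ⊆ b) →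
      ∀ c : Fin v → Fin k, Function.Surjective c →
        (∀ b ∈ B, ∃ x ∈ b, ∃ y ∈ b, x ≠ y ∧ c x = c y) → 2 ^ k = 2 * v →
        ∃ σ : Equiv.Perm (Fin k),
          (∀ i : Fin k, (Finset.univ.filter fun x => σ (c x) = i).card = 2 ^ (i.val - 1)) ∧
          ∀ b ∈ B, (∃ x ∈ b, (σ (c x)).val ≤ 1) → ∀ j : Fin k,
            3 ≤ (b.filter fun x => σ (c x) ≤ j).card → ∀ y ∈ b, σ (c y) ≤ j := by
  intro v k B h4 h3 c hs hc he
  obtain ⟨σ, hσ⟩ := Pool.Agent.MP_741a63_co.sizes_eq B h4 h3 k c hs hc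
    (by rw [Fintype.card_fin]; exact he)
  refine ⟨σ, hσ, fun b hb ⟨x, hxb, hx⟩ j hj => ?_⟩
  refine Pool.Agent.MP_741a63_co.nested B h4 h3 k (fun x => σ (c x)) (fun b hb => ?_) hσ b hb x
    hxb hx j hj
  obtain ⟨y, hy, z, hz, hyz, hcc⟩ := hc b hb
  exact ⟨y, hy, z, hz, hyz, congrArg σ hcc⟩

end Pool.Agent.Results.MP_741a63_co.ExtremalClasses
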