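import Mathlib
import Pool.Agent.MP_741a63_co.Wild

set_option autoImplicit false

namespace Pool.Agent.Results.MP_741a63_co.NoHalfSubsystem

/-- From order 16 on there are Steiner quadruple systems on `2 ^ n` points with a colouring with
`n + 1` colours and without any subsystem on half of the points. -/
theorem result :
    ∀ n : ℕ, 4 ≤ n → ∃ B : Finset (Finset (Fin (2 ^ n))),
      (∀ b ∈ B, b.card = 4) ∧
      (∀ T : Finset (Fin (2 ^ n)), T.card = 3 → ∃! b, b ∈ B ∧ T ⊆ b) ∧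
      (∃ c : Fin (2 ^ n) → Fin (n + 1), Function.Surjective c ∧
        ∀ b ∈ B, ∃ x ∈ b, ∃ y ∈ b, x ≠ y ∧ c x = c y) ∧
      ∀ W : Finset (Fin (2 ^ n)), W.card = 2 ^ (n - 1) → ∃ b ∈ B, (b ∩ W).card = 3 :=
  Pool.Agent.MP_741a63_co.wild

end Pool.Agent.Results.MP_741a63_co.NoHalfSubsystem
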