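import Mathlib
import Pool.Agent.MP_741a63_co.Sharp

set_option autoImplicit false

namespace Pool.Agent.Results.MP_741a63_co.SharpBound

/-- Sharp bound for the upper chromatic number of C-Steiner quadruple systems:
`k` colours force `2 ^ (k - 1) ≤ v`, and for `v = 2 ^ n` the value `k = n + 1` is attained. -/
theorem result :
    (∀ v : ℕ, 1 ≤ v → ∀ B : Finset (Finset (Fin v)),
      (∀ b ∈ B, b.card = 4) →
      (∀ T : Finset (Fin v), T.card = 3 → ∃! b, b ∈ B ∧ T ⊆ b) →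
      ∀ (k : ℕ) (c : Fin v → Fin k), Function.Surjective c →
        (∀ b ∈ B, ∃ x ∈ b, ∃ y ∈ b, x ≠ y ∧ c x = c y) → 2 ^ k ≤ 2 * v) ∧
    (∀ n : ℕ, ∃ B : Finset (Finset (Fin (2 ^ n))),
      (∀ b ∈ B, b.card = 4) ∧
      (∀ T : Finset (Fin (2 ^ n)), T.card = 3 → ∃! b, b ∈ B ∧ T ⊆ b) ∧
      ∃ c : Fin (2 ^ n) → Fin (n + 1), Function.Surjective c ∧
        ∀ b ∈ B, ∃ x ∈ b, ∃ y ∈ b, x ≠ y ∧ c x = c y) :=
  ⟨Pool.Agent.MP_741a63_co.sharp_upper, Pool.Agent.MP_741a63_co.sharp_lower⟩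

end Pool.Agent.Results.MP_741a63_co.SharpBound
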